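import Pool.Agent.V1139.LP.Line

/-!
# Digits of a linear form and of polynomials in `e` and an arbitrary number

Author: helper39.  The rational approximations come from `Pool.Agent.V1189.DG.exists_approx` (helper89).
-/

set_option autoImplicit false

namespace Pool.Agent.V1139.LP

open Polynomial Finset
open Pool.Agent.V1139.DC (approx_of_small Small abs_aeval_le)

/-- all coefficients are at most `h` in absolute value -/
def Ht (h : ℝ) (P : ℤ[X][X]) : Prop := ∀ j i, |((P.coeff j).coeff i : ℝ)| ≤ h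

lemma abs_vv_le (x t T : ℝ) (hT : 1 ≤ T) (ht : |t| ≤ T) (d : ℕ) (P : ℤ[X][X]) (hP : Td d P) (h : ℝ)
    (hPh : Ht h P) : |vv x t P| ≤ (((d : ℝ) + 1) * (((d : ℝ) + 1) * (max 1 |x|) ^ d) * T ^ d) * h := by
  have hh : 0 ≤ h := (abs_nonneg _).trans (hPh 0 0)
  rw [vv_eq x t P d hP.1]
  refine (Finset.abs_sum_le_sum_abs _ _).trans ?_
  calc ∑ j ∈ range (d + 1), |aeval x (P.coeff j) * t ^ j|
      ≤ ∑ _j ∈ range (d + 1), ((((d : ℝ) + 1) * (max 1 |x|) ^ d) * h) * T ^ d := by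
        refine Finset.sum_le_sum fun j hj => ?_
        rw [mem_range] at hj
        rw [abs_mul, abs_pow]
        have h1 := abs_aeval_le x (P.coeff j) d ((hP.2 j (by omega)).trans (by omega)) h (hPh j)
        have h2 : |t| ^ j ≤ T ^ d :=
          (pow_le_pow_left₀ (abs_nonneg _) ht j).trans (pow_le_pow_right₀ hT (by omega))
        exact mul_le_mul h1 h2 (by positivity) (by positivity)
    _ = _ := by
        rw [Finset.sum_const, Finset.card_range, nsmul_eq_mul]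
        push_cast
        ring

/-- **Digits**: a linear form and all polynomials, at one scale. -/
theorem digits_line (d : ℕ) (hd : 1 ≤ d) (T ε : ℝ) (hT : 1 ≤ T) (hε : 0 < ε) :
    ∃ K δ : ℝ, 0 < K ∧ 0 < δ ∧ ∀ t : ℝ, |t| ≤ T → ∀ (Λ : ℝ) (A B C' : ℤ) (E : ℕ), C' ≠ 0 →
      |(A : ℝ)| ≤ Real.exp (δ * Λ) → |(B : ℝ)| ≤ Real.exp (δ * Λ) →
      |(C' : ℝ)| ≤ Real.exp (δ * Λ) → 1 ≤ E → (E : ℝ) ≤ Real.exp (δ * Λ) →
      Small (1 / ((d : ℝ) + 1) ^ 2 - ε) K Λ ((A + B * Real.exp 1 + C' * t) / E) →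
      ∃ r : ℚ, ∀ (P : ℤ[X][X]) (E' : ℕ), Td d P → Ht (Real.exp (δ * Λ)) P → 1 ≤ E' →
        (E' : ℝ) ≤ Real.exp (δ * Λ) →
        Small (1 / ((d : ℝ) + 1) ^ 2 - ε) K Λ (vv (Real.exp 1) t P / E') →
        ∃ s : ℚ, ∀ u v : ℂ, (B : ℂ) * u + C' * v = r → vv u v P = s := by
  obtain ⟨M, hM⟩ : ∃ M : ℝ, M = ((d : ℝ) + 1) ^ 2 := ⟨_, rfl⟩
  have hd0 : (0 : ℝ) ≤ d := Nat.cast_nonneg d
  have hM1 : 1 ≤ M := by rw [hM]; exact one_le_pow₀ (by linarith)
  obtain ⟨ν, hν⟩ : ∃ ν : ℝ, ν = 1 / M := ⟨_, rfl⟩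
  have hνM : M * ν = 1 := by rw [hν]; field_simp
  have hν0 : 0 < ν := by rw [hν]; positivity
  have hν1 : ν ≤ 1 := by rw [hν, div_le_one (by linarith)]; exact hM1
  rw [← hM, ← hν]
  obtain ⟨K₀, hK₀, hK⟩ := approx_of_small ν ε hν1 hε
  -- the inequality
  obtain ⟨η, hη⟩ : ∃ η : ℝ, η = ε / 16 := ⟨_, rfl⟩
  have hη0 : 0 < η := by rw [hη]; positivity
  obtain ⟨κ, hκ, hline⟩ := line d hd T η (by linarith) hη0
  obtain ⟨WP, hWP⟩ : ∃ WP : ℝ, WP =
    (((d : ℝ) + 1) * (((d : ℝ) + 1) * (max 1 |Real.exp 1|) ^ d) * T ^ d) := ⟨_, rfl⟩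
  have hWP0 : 0 ≤ WP := by rw [hWP]; positivity
  obtain ⟨e, he⟩ : ∃ e : ℝ, e = Real.exp 1 := ⟨_, rfl⟩
  have he0 : 0 < e := by rw [he]; exact Real.exp_pos 1
  rw [← he] at hline ⊢
  obtain ⟨W₀, hW₀⟩ : ∃ W₀ : ℝ, W₀ = 4 + e + T + WP := ⟨_, rfl⟩
  have hW₀1 : 1 ≤ W₀ := by rw [hW₀]; linarith
  have hW₀0 : 0 < W₀ := by linarith
  have hlW : 0 ≤ Real.log W₀ := Real.log_nonneg hW₀1
  have hlκ := abs_nonneg (Real.log κ)
  obtain ⟨Z, hZ⟩ : ∃ Z : ℝ, Z = (M + 2) * Real.log W₀ + 1 + |Real.log κ| := ⟨_, rfl⟩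
  have hZ0 : 0 < Z := by rw [hZ]; positivity
  obtain ⟨K, hKd⟩ : ∃ K : ℝ, K = K₀ + 16 / ε * Z := ⟨_, rfl⟩
  have hKK₀ : K₀ ≤ K := by
    rw [hKd]
    have : 0 ≤ 16 / ε * Z := by positivity
    linarith
  have hK0 : 0 < K := by linarith
  refine ⟨K, ε / 16, hK0, by positivity, fun t ht Λ A B C' E hC hA hB hC' hE1 hE hs => ?_⟩
  obtain ⟨hνε, hKΛ, q, p, hq1, hqU, hqx⟩ := hK K hKK₀ Λ _ hs
  have hZΛ : Z ≤ ε / 8 * Λ := by
    have h1 : 16 / ε * Z ≤ 2 * Λ := by linarith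
    rw [div_mul_eq_mul_div, div_le_iff₀ hε] at h1
    linarith
  have hΛ0 : 0 < Λ := by
    have : 0 < ε / 8 * Λ := by linarith
    by_contra hcon
    push Not at hcon
    have := mul_nonpos_of_nonneg_of_nonpos (by linarith : 0 ≤ ε / 8) hcon
    linarith
  obtain ⟨G, hG⟩ : ∃ G : ℝ, G = Real.exp (ε / 16 * Λ) := ⟨_, rfl⟩
  rw [← hG] at hA hB hC' hE ⊢
  have hG1 : 1 ≤ G := by rw [hG]; exact Real.one_le_exp (by positivity)
  obtain ⟨U, hU⟩ : ∃ U : ℝ, U = (ν - ε / 2) * Λ := ⟨_, rfl⟩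
  rw [← hU] at hqU hqx
  have hU0 : 0 ≤ U := by rw [hU]; exact mul_nonneg (by linarith) hΛ0.le
  obtain ⟨Q, hQ⟩ : ∃ Q : ℝ, Q = Real.exp U := ⟨_, rfl⟩
  rw [← hQ] at hqU
  have hQ1 : 1 ≤ Q := by rw [hQ]; exact Real.one_le_exp hU0
  have hUΛ : U - Λ ≤ 0 := by
    have h1 : (ν - ε / 2) * Λ ≤ 1 * Λ := mul_le_mul_of_nonneg_right (by linarith) hΛ0.le
    rw [hU]
    linarith
  obtain ⟨τ, hτ⟩ : ∃ τ : ℝ, τ = Real.exp (U - Λ) := ⟨_, rfl⟩
  rw [← hτ] at hqx
  have hτ0 : 0 < τ := by rw [hτ]; exact Real.exp_pos _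
  have hτ1 : τ ≤ 1 := by rw [hτ]; exact Real.exp_le_one_iff.2 hUΛ
  have hq0 : (0 : ℝ) < q := by exact_mod_cast hq1
  have hE0 : (0 : ℝ) < E := by exact_mod_cast hE1
  have hqC : (q : ℂ) ≠ 0 := by exact_mod_cast (by omega : q ≠ 0)
  have hQG : 1 ≤ Q * G := one_le_mul_of_one_le_of_one_le hQ1 hG1
  have hGQ : G ≤ Q * G := le_mul_of_one_le_left (by linarith) hQ1
  -- the linear form
  have hLv : ((q * A - p * E : ℤ) : ℝ) + ((q * B : ℤ) : ℝ) * e + ((q * C' : ℤ) : ℝ) * t =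
      E * (q * ((A + B * e + C' * t) / E) - p) := by
    push_cast
    field_simp
    ring
  have hLs : |((q * A - p * E : ℤ) : ℝ) + ((q * B : ℤ) : ℝ) * e + ((q * C' : ℤ) : ℝ) * t| ≤
      G * τ := by
    rw [hLv, abs_mul, abs_of_pos hE0]
    exact mul_le_mul hE hqx (abs_nonneg _) (by linarith)
  have hqB : ∀ z : ℤ, |(z : ℝ)| ≤ G → |((q * z : ℤ) : ℝ)| ≤ Q * G := by
    intro z hz
    push_cast
    rw [abs_mul, abs_of_pos hq0]
    exact mul_le_mul hqU hz (abs_nonneg _) (by linarith)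
  have hh : ∀ y : ℝ, 0 ≤ y → y ≤ (4 + e + T) * (Q * G) → y ≤ W₀ * (Q * G) := by
    intro y _ h
    refine h.trans (mul_le_mul_of_nonneg_right ?_ (by linarith))
    rw [hW₀]; linarith
  have hb : |((q * B : ℤ) : ℝ)| ≤ W₀ * (Q * G) := by
    refine hh _ (abs_nonneg _) ((hqB B hB).trans ?_)
    exact le_mul_of_one_le_left (by linarith) (by linarith)
  have hc : |((q * C' : ℤ) : ℝ)| ≤ W₀ * (Q * G) := by
    refine hh _ (abs_nonneg _) ((hqB C' hC').trans ?_)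
    exact le_mul_of_one_le_left (by linarith) (by linarith)
  have ha : |((q * A - p * E : ℤ) : ℝ)| ≤ W₀ * (Q * G) := by
    refine hh _ (abs_nonneg _) ?_
    have e1 : ((q * A - p * E : ℤ) : ℝ) =
        (((q * A - p * E : ℤ) : ℝ) + ((q * B : ℤ) : ℝ) * e + ((q * C' : ℤ) : ℝ) * t) -
          ((q * B : ℤ) : ℝ) * e - ((q * C' : ℤ) : ℝ) * t := by ring
    rw [e1]
    have h1 : |((q * B : ℤ) : ℝ) * e| ≤ (Q * G) * e := by
      rw [abs_mul, abs_of_pos he0]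
      exact mul_le_mul_of_nonneg_right (hqB B hB) he0.le
    have h2 : |((q * C' : ℤ) : ℝ) * t| ≤ (Q * G) * T := by
      rw [abs_mul]
      exact mul_le_mul (hqB C' hC') ht (abs_nonneg _) (by linarith)
    have h3 : G * τ ≤ Q * G := (mul_le_of_le_one_right (by linarith) hτ1).trans hGQ
    refine (abs_sub _ _).trans ?_
    have h4 := abs_sub (((q * A - p * E : ℤ) : ℝ) + ((q * B : ℤ) : ℝ) * e +
      ((q * C' : ℤ) : ℝ) * t) (((q * B : ℤ) : ℝ) * e)
    linarith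
  have hcne : (q * C' : ℤ) ≠ 0 := mul_ne_zero (by exact_mod_cast (by omega : q ≠ 0)) hC
  refine ⟨(p * E : ℤ) / (q : ℚ) - A, fun P E' hP hPH hE'1 hE' hs' => ?_⟩
  obtain ⟨-, -, q₂, p₂, hq₂1, hq₂U, hq₂x⟩ := hK K hKK₀ Λ _ hs'
  rw [← hU, ← hQ] at hq₂U
  rw [← hU, ← hτ] at hq₂x
  have hq₂0 : (0 : ℝ) < q₂ := by exact_mod_cast hq₂1
  have hE'0 : (0 : ℝ) < E' := by exact_mod_cast hE'1
  have hq₂C : (q₂ : ℂ) ≠ 0 := by exact_mod_cast (by omega : q₂ ≠ 0)
  obtain ⟨P', hP'⟩ : ∃ P' : ℤ[X][X], P' = C (C (q₂ : ℤ)) * P - C (C (p₂ * E')) := ⟨_, rfl⟩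
  have hcoef : ∀ j, P'.coeff j = C (q₂ : ℤ) * P.coeff j - if j = 0 then C (p₂ * E') else 0 := by
    intro j
    rw [hP', coeff_sub, coeff_C_mul, coeff_C]
  have hP'td : Td d P' := by
    constructor
    · rw [hP', natDegree_sub_C]
      exact (natDegree_C_mul_le _ _).trans hP.1
    · intro j hj
      rw [hcoef]
      refine (natDegree_sub_le _ _).trans (max_le ((natDegree_C_mul_le _ _).trans (hP.2 j hj)) ?_)
      split_ifs
      · exact (natDegree_C _).le.trans (Nat.zero_le _)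
      · simp
  have hval : ∀ (S : Type) (_ : CommRing S) (u v : S),
      vv u v P' = q₂ * vv u v P - ((p₂ * E' : ℤ) : S) := by
    intro S _ u v
    rw [hP']
    unfold vv
    rw [eval₂_sub, eval₂_mul, eval₂_C, eval₂_C]
    simp
  have hval' : vv e t P' = E' * (q₂ * (vv e t P / E') - p₂) := by
    rw [hval ℝ _ e t]
    push_cast
    field_simp
  have hvs : |vv e t P'| ≤ G * τ := by
    rw [hval', abs_mul, abs_of_pos hE'0]
    exact mul_le_mul hE' hq₂x (abs_nonneg _) (by linarith)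
  have hPv : |vv e t P| ≤ WP * G := by
    rw [hWP, ← he]
    exact abs_vv_le e t T hT ht d P hP G hPH
  have hpE : |((p₂ * E' : ℤ) : ℝ)| ≤ Q * (WP * G) + G := by
    have e1 : ((p₂ * E' : ℤ) : ℝ) = q₂ * vv e t P - vv e t P' := by
      rw [hval ℝ _ e t]; ring
    rw [e1]
    refine (abs_sub _ _).trans (add_le_add ?_ ?_)
    · rw [abs_mul, abs_of_pos hq₂0]
      exact mul_le_mul hq₂U hPv (abs_nonneg _) (by linarith)
    · exact hvs.trans (mul_le_of_le_one_right (by linarith) hτ1)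
  have hP'H : ∀ j i, |((P'.coeff j).coeff i : ℝ)| ≤ W₀ * (Q * G) := by
    intro j i
    rw [hcoef, coeff_sub, coeff_C_mul]
    push_cast
    refine (abs_sub _ _).trans ?_
    rw [abs_mul, abs_of_pos hq₂0]
    have h1 : (q₂ : ℝ) * |((P.coeff j).coeff i : ℝ)| ≤ Q * G :=
      mul_le_mul hq₂U (hPH j i) (abs_nonneg _) (by linarith)
    have h2 : |((((if j = 0 then C (p₂ * E') else 0 : ℤ[X])).coeff i : ℤ) : ℝ)| ≤
        Q * (WP * G) + G := by
      have h3 : 0 ≤ Q * (WP * G) + G := by positivity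
      split_ifs
      · rw [coeff_C]
        split_ifs
        · exact hpE
        · simpa using h3
      · simpa using h3
    rw [hW₀]
    have h4 : 0 ≤ (2 + e + T) * (Q * G) := by
      have : 0 ≤ 2 + e + T := by linarith
      exact mul_nonneg this (by linarith)
    linarith
  have hW1 : 1 ≤ W₀ * (Q * G) := one_le_mul_of_one_le_of_one_le hW₀1 hQG
  -- the contradiction
  have hno : ¬ ∃ u v : ℂ, ((q * A - p * E : ℤ) : ℂ) + ((q * B : ℤ) : ℂ) * u +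
      ((q * C' : ℤ) : ℂ) * v = 0 ∧ vv u v P' ≠ 0 := by
    intro hne
    have h1 := hline t ht (q * A - p * E) (q * B) (q * C') P' (W₀ * (Q * G)) (W₀ * (Q * G)) hcne
      hW1 hW1 ha hb hc hP'td hP'H hne
    rw [div_self (by linarith), one_mul] at h1
    obtain ⟨H, hH⟩ : ∃ H : ℝ, H = W₀ * (Q * G) := ⟨_, rfl⟩
    rw [← hH] at h1 hW1
    have hH0 : 0 < H := by linarith
    have h2 : κ ≤ H ^ ((d : ℝ) * (d + 1) + η) * H ^ ((d : ℝ) + η) * (2 * (G * τ)) := by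
      refine h1.trans ?_
      apply mul_le_mul_of_nonneg_left _ (by positivity)
      linarith
    rw [← Real.rpow_add hH0] at h2
    have e3 : (d : ℝ) * (d + 1) + η + (d + η) = M - 1 + 2 * η := by rw [hM]; ring
    rw [e3] at h2
    have h3 := Real.log_le_log hκ h2
    have hHlog : Real.log H = Real.log W₀ + (U + ε / 16 * Λ) := by
      rw [hH, hQ, hG, Real.log_mul hW₀0.ne' (by positivity), ← Real.exp_add, Real.log_exp]
    rw [Real.log_mul (by positivity) (by positivity), Real.log_rpow hH0,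
      Real.log_mul (by norm_num) (by positivity), hG, hτ, ← Real.exp_add, Real.log_exp, hHlog] at h3
    have hl2 : Real.log 2 ≤ 1 := by
      have := Real.log_two_lt_d9
      linarith
    have h4 := neg_abs_le (Real.log κ)
    have h5 : (M - 1 + 2 * η) * (Real.log W₀ + (U + ε / 16 * Λ)) =
        (M - 1 + 2 * η) * Real.log W₀ + (M - 1 + 2 * η) * (U + ε / 16 * Λ) := by ring
    have hε2 : ε ≤ 2 := by
      by_contra hcon
      push Not at hcon
      have : ν - ε < 0 := by linarith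
      linarith
    have hη1 : 2 * η ≤ 2 := by rw [hη]; linarith
    have h6 : (M - 1 + 2 * η) * Real.log W₀ ≤ (M + 2) * Real.log W₀ :=
      mul_le_mul_of_nonneg_right (by linarith) hlW
    have h7 : (M - 1 + 2 * η) * (U + ε / 16 * Λ) + (ε / 16 * Λ + (U - Λ)) =
        (M * ν - 1) * Λ - M * (ε / 2 - ε / 16) * Λ + 2 * η * ((ν - ε / 2 + ε / 16) * Λ) := by
      rw [hU]; ring
    have h8 : M * ν - 1 = 0 := by linarith
    have h9 : (ε / 2 - ε / 16) * Λ ≤ M * (ε / 2 - ε / 16) * Λ := by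
      apply mul_le_mul_of_nonneg_right _ hΛ0.le
      have : 0 ≤ ε / 2 - ε / 16 := by linarith
      nlinarith
    have h10 : 2 * η * ((ν - ε / 2 + ε / 16) * Λ) ≤ 2 * η * (1 * Λ) := by
      apply mul_le_mul_of_nonneg_left _ (by positivity)
      exact mul_le_mul_of_nonneg_right (by linarith) hΛ0.le
    have h11 : 2 * η * (1 * Λ) = ε / 8 * Λ := by rw [hη]; ring
    rw [h8, zero_mul, zero_sub] at h7
    rw [hZ] at hZΛ
    have h12 : 0 < ε * Λ := mul_pos hε hΛ0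
    linarith
  refine ⟨(p₂ * E' : ℤ) / (q₂ : ℚ), fun u v huv => ?_⟩
  by_contra hne
  apply hno
  refine ⟨u, v, ?_, fun h0 => hne ?_⟩
  · push_cast at huv ⊢
    have h1 : (q : ℂ) * (B * u + C' * v) = p * E - q * A := by
      rw [huv]
      field_simp
    linear_combination h1
  · rw [hval ℂ _ u v] at h0
    push_cast at h0 ⊢
    rw [eq_div_iff hq₂C]
    linear_combination h0

end Pool.Agent.V1139.LP
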