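import Pool.Agent.V1139.LP.Line

/-!
# Algebraic dependence of `e` and `t` gives a measure of linear independence of `1, e, t`

Author: helper39.
-/

set_option autoImplicit false

namespace Pool.Agent.V1139.LP

open Polynomial Finset

/-- total degree at most `k` -/
def TD (k : ℕ) (Q : ℤ[X][X]) : Prop := ∀ i, Q.coeff i ≠ 0 → (Q.coeff i).natDegree + i ≤ k

lemma td_of_TD {k : ℕ} {Q : ℤ[X][X]} (h : TD k Q) : Td k Q := by
  constructor
  · rw [natDegree_le_iff_coeff_eq_zero]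
    intro i hi
    by_contra hne
    have := h i hne
    omega
  · intro j hj
    by_cases h0 : Q.coeff j = 0
    · rw [h0]; simp
    · have := h j h0
      omega

lemma TD_of_td {k : ℕ} {Q : ℤ[X][X]} (h : Td k Q) : TD k Q := by
  intro i hi
  have h1 : i ≤ k := (le_natDegree_of_ne_zero hi).trans h.1
  have := h.2 i h1
  omega

lemma TD_add {k : ℕ} {P Q : ℤ[X][X]} (hP : TD k P) (hQ : TD k Q) : TD k (P + Q) := by
  intro i hi
  rw [coeff_add] at hi ⊢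
  by_cases h1 : P.coeff i = 0
  · rw [h1, zero_add] at hi ⊢
    exact hQ i hi
  · by_cases h2 : Q.coeff i = 0
    · rw [h2, add_zero]
      exact hP i h1
    · have := natDegree_add_le (P.coeff i) (Q.coeff i)
      have := hP i h1
      have := hQ i h2
      omega

lemma TD_sum {k : ℕ} {ι : Type} (s : Finset ι) (f : ι → ℤ[X][X]) (h : ∀ i ∈ s, TD k (f i)) :
    TD k (∑ i ∈ s, f i) := by
  classical
  induction s using Finset.induction_on with
  | empty => intro i hi; simp at hi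
  | insert a s ha ih =>
    rw [Finset.sum_insert ha]
    exact TD_add (h a (Finset.mem_insert_self _ _))
      (ih fun i hi => h i (Finset.mem_insert_of_mem hi))

lemma TD_mul {k l : ℕ} {P Q : ℤ[X][X]} (hP : TD k P) (hQ : TD l Q) : TD (k + l) (P * Q) := by
  intro n hn
  have hle : n ≤ k + l := by
    by_contra hlt
    apply hn
    rw [coeff_mul]
    refine Finset.sum_eq_zero fun x hx => ?_
    rw [Finset.HasAntidiagonal.mem_antidiagonal] at hx
    by_cases h1 : P.coeff x.1 = 0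
    · rw [h1, zero_mul]
    · by_cases h2 : Q.coeff x.2 = 0
      · rw [h2, mul_zero]
      · have := hP _ h1
        have := hQ _ h2
        omega
  have hd : ((P * Q).coeff n).natDegree ≤ k + l - n := by
    rw [coeff_mul]
    refine natDegree_sum_le_of_forall_le _ _ fun x hx => ?_
    rw [Finset.HasAntidiagonal.mem_antidiagonal] at hx
    by_cases h1 : P.coeff x.1 = 0
    · rw [h1, zero_mul]; simp
    · by_cases h2 : Q.coeff x.2 = 0
      · rw [h2, mul_zero]; simp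
      · have := hP _ h1
        have := hQ _ h2
        have := natDegree_mul_le (p := P.coeff x.1) (q := Q.coeff x.2)
        omega
  omega

lemma TD_C {k : ℕ} (f : ℤ[X]) (hf : f.natDegree ≤ k) : TD k (C f) := by
  intro i hi
  rw [coeff_C] at hi ⊢
  split_ifs at hi ⊢ with h
  · omega
  · exact absurd rfl hi

lemma TD_X : TD 1 (X : ℤ[X][X]) := by
  intro i hi
  rw [coeff_X] at hi ⊢
  split_ifs at hi ⊢ with h
  · rw [natDegree_one]; omega
  · exact absurd rfl hi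

lemma TD_pow {k : ℕ} {P : ℤ[X][X]} (hP : TD k P) (n : ℕ) : TD (n * k) (P ^ n) := by
  induction n with
  | zero =>
    rw [pow_zero, zero_mul]
    have := TD_C (k := 0) 1 (by simp)
    rwa [C_1] at this
  | succ n ih =>
    rw [pow_succ, Nat.succ_mul]
    exact TD_mul ih hP

lemma TD_mono {k l : ℕ} (h : k ≤ l) {P : ℤ[X][X]} (hP : TD k P) : TD l P :=
  fun i hi => (hP i hi).trans h

/-- the quotient by the linear form -/
noncomputable def quo (a b c : ℤ) (d : ℕ) (P : ℤ[X][X]) : ℤ[X][X] :=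
  ∑ j ∈ range (d + 1), C (P.coeff j) * C (C (c ^ (d - j))) *
    ∑ i ∈ range j, (C (C c) * X) ^ i * (C (-(C a + C b * X)) : ℤ[X][X]) ^ (j - 1 - i)

lemma quo_mul (a b c : ℤ) (d : ℕ) (P : ℤ[X][X]) (hP : P.natDegree ≤ d) :
    (C (C c) * X - C (-(C a + C b * X)) : ℤ[X][X]) * quo a b c d P =
      C (C (c ^ d)) * P - C (res a b c d P) := by
  unfold quo res
  rw [Finset.mul_sum]
  have e1 : C (C (c ^ d)) * P = ∑ j ∈ range (d + 1),
      C (P.coeff j) * C (C (c ^ (d - j))) * (C (C c) * X : ℤ[X][X]) ^ j := by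
    conv_lhs => rw [P.as_sum_range_C_mul_X_pow' (show P.natDegree < d + 1 by omega)]
    rw [Finset.mul_sum]
    refine Finset.sum_congr rfl fun j hj => ?_
    rw [mem_range] at hj
    have e2 : (C (C (c ^ d)) : ℤ[X][X]) = C (C (c ^ (d - j))) * C (C c) ^ j := by
      rw [← C_pow, ← C_pow, ← C_mul, ← C_mul, ← pow_add]
      congr 3
      omega
    rw [e2, mul_pow]
    ring
  have e3 : (C (∑ j ∈ range (d + 1), P.coeff j * (-(C a + C b * X)) ^ j * C (c ^ (d - j))) :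
      ℤ[X][X]) = ∑ j ∈ range (d + 1),
      C (P.coeff j) * C (C (c ^ (d - j))) * (C (-(C a + C b * X)) : ℤ[X][X]) ^ j := by
    rw [map_sum]
    refine Finset.sum_congr rfl fun j _ => ?_
    rw [C_mul, C_mul, C_pow]
    ring
  rw [e1, e3, ← Finset.sum_sub_distrib]
  refine Finset.sum_congr rfl fun j _ => ?_
  have e4 := Commute.mul_geom_sum₂ (Commute.all (C (C c) * X : ℤ[X][X]) (C (-(C a + C b * X)))) j
  calc _ = C (P.coeff j) * C (C (c ^ (d - j))) * ((C (C c) * X - C (-(C a + C b * X))) *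
        ∑ i ∈ range j, (C (C c) * X) ^ i * (C (-(C a + C b * X)) : ℤ[X][X]) ^ (j - 1 - i)) := by
        ring
    _ = _ := by rw [e4]; ring

lemma quo_TD (a b c : ℤ) (d : ℕ) (hd : 1 ≤ d) (P : ℤ[X][X]) (hP : Td d P) :
    TD (d - 1) (quo a b c d P) := by
  unfold quo
  refine TD_sum _ _ fun j hj => ?_
  rw [mem_range] at hj
  rcases Nat.eq_zero_or_pos j with h0 | h0
  · subst h0
    intro i hi
    simp at hi
  · have h1 : TD (d - j) (C (P.coeff j)) := TD_C _ (hP.2 j (by omega))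
    have h2 : TD 0 (C (C (c ^ (d - j))) : ℤ[X][X]) := TD_C _ (by simp)
    have h3 : TD (j - 1) (∑ i ∈ range j, (C (C c) * X) ^ i *
        (C (-(C a + C b * X)) : ℤ[X][X]) ^ (j - 1 - i)) := by
      refine TD_sum _ _ fun i hi => ?_
      rw [mem_range] at hi
      have h4 : TD 1 (C (C c) * X : ℤ[X][X]) := by
        have := TD_mul (TD_C (k := 0) (C c) (by simp)) TD_X
        simpa using this
      have h5 : TD 1 (C (-(C a + C b * X)) : ℤ[X][X]) := by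
        refine TD_C _ ?_
        rw [natDegree_neg]
        exact (natDegree_C_add (R := ℤ)).le.trans ((natDegree_C_mul_le b X).trans natDegree_X_le)
      refine TD_mono ?_ (TD_mul (TD_pow h4 i) (TD_pow h5 (j - 1 - i)))
      omega
    refine TD_mono ?_ (TD_mul (TD_mul h1 h2) h3)
    omega

/-- a relation of least total degree does not vanish on lines -/
lemma res_ne_of_min (t : ℝ) (x : ℝ) (d : ℕ) (hd : 1 ≤ d) (P : ℤ[X][X]) (hP0 : P ≠ 0)
    (hP : Td d P) (hPt : vv x t P = 0)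
    (hmin : ∀ Q : ℤ[X][X], Q ≠ 0 → TD (d - 1) Q → vv x t Q ≠ 0) (a b c : ℤ) (hc : c ≠ 0)
    (hL : (a : ℝ) + b * x + c * t ≠ 0) : res a b c d P ≠ 0 := by
  intro h
  have h1 := quo_mul a b c d P hP.1
  rw [h, C_0, sub_zero] at h1
  have hne : quo a b c d P ≠ 0 := by
    intro h0
    rw [h0, mul_zero] at h1
    have h2 : (C (C (c ^ d)) : ℤ[X][X]) ≠ 0 := by
      rw [Ne, C_eq_zero, C_eq_zero]
      exact pow_ne_zero _ hc
    exact hP0 ((mul_eq_zero.1 h1.symm).resolve_left h2)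
  apply hmin _ hne (quo_TD a b c d hd P hP)
  have h3 : vv x t ((C (C c) * X - C (-(C a + C b * X)) : ℤ[X][X]) * quo a b c d P) = 0 := by
    rw [h1]
    unfold vv at hPt ⊢
    rw [eval₂_mul, hPt, mul_zero]
  have h4 : vv x t ((C (C c) * X - C (-(C a + C b * X)) : ℤ[X][X]) * quo a b c d P) =
      ((a : ℝ) + b * x + c * t) * vv x t (quo a b c d P) := by
    unfold vv
    rw [eval₂_mul]
    congr 1
    rw [eval₂_sub, eval₂_mul, eval₂_C, eval₂_X, eval₂_C]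
    have e1 : (aeval x : ℤ[X] →ₐ[ℤ] ℝ).toRingHom (C c) = c := by simp
    have e2 : (aeval x : ℤ[X] →ₐ[ℤ] ℝ).toRingHom (-(C a + C b * X)) = -(a + b * x) := by simp
    rw [e1, e2]
    ring
  rw [h4] at h3
  exact (mul_eq_zero.1 h3).resolve_left hL

lemma exists_point (a b c : ℤ) (d : ℕ) (P : ℤ[X][X]) (hP : P.natDegree ≤ d) (hc : c ≠ 0)
    (h : res a b c d P ≠ 0) : ∃ u v : ℂ, (a : ℂ) + b * u + c * v = 0 ∧ vv u v P ≠ 0 := by
  have hinj : Function.Injective (Int.castRingHom ℂ) := Int.cast_injective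
  have h1 : (res a b c d P).map (Int.castRingHom ℂ) ≠ 0 := (Polynomial.map_ne_zero_iff hinj).2 h
  obtain ⟨u, hu⟩ : ∃ u : ℂ, eval u ((res a b c d P).map (Int.castRingHom ℂ)) ≠ 0 := by
    by_contra hcon
    push Not at hcon
    exact h1 (Polynomial.funext fun u => by rw [hcon u, eval_zero])
  have hcC : (c : ℂ) ≠ 0 := by exact_mod_cast hc
  obtain ⟨v, hv⟩ : ∃ v : ℂ, v = -(a + b * u) / c := ⟨_, rfl⟩
  have huv : (a : ℂ) + b * u + c * v = 0 := by
    rw [hv]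
    field_simp
    ring
  refine ⟨u, v, huv, fun h0 => hu ?_⟩
  have h2 : eval u ((res a b c d P).map (Int.castRingHom ℂ)) = aeval u (res a b c d P) := by
    rw [eval_map, aeval_def]
    rfl
  rw [h2, aeval_res]
  have h3 : (c : ℂ) ^ d * vv u v P = 0 := by rw [h0, mul_zero]
  rw [vv_eq u v P d hP, Finset.mul_sum] at h3
  rw [← h3]
  refine Finset.sum_congr rfl fun j hj => ?_
  rw [mem_range] at hj
  have e : -((a : ℂ) + b * u) = c * v := by linear_combination -huv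
  rw [e, mul_pow]
  have e2 : (c : ℂ) ^ d = c ^ j * c ^ (d - j) := by rw [← pow_add]; congr 1; omega
  rw [e2]
  ring

/-- **A relation of degree `d` between `e` and `t` gives a measure for `1, e, t`.** -/
theorem dicho (t : ℝ) (d : ℕ) (P : ℤ[X][X]) (hP0 : P ≠ 0) (hP : Td d P)
    (hPt : vv (Real.exp 1) t P = 0)
    (hli : ∀ a b c : ℤ, (a : ℝ) + b * Real.exp 1 + c * t = 0 → a = 0 ∧ b = 0 ∧ c = 0)
    (η : ℝ) (hη : 0 < η) : ∃ κ : ℝ, 0 < κ ∧ ∀ (a b c : ℤ) (H : ℝ), 1 ≤ H →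
      |(a : ℝ)| ≤ H → |(b : ℝ)| ≤ H → |(c : ℝ)| ≤ H → (a ≠ 0 ∨ b ≠ 0 ∨ c ≠ 0) →
      κ * H ^ (-((d : ℝ) ^ 2 + d - 1 + η)) ≤ |(a : ℝ) + b * Real.exp 1 + c * t| := by
  classical
  -- a relation of least degree
  have hex : ∃ k : ℕ, ∃ Q : ℤ[X][X], Q ≠ 0 ∧ TD k Q ∧ vv (Real.exp 1) t Q = 0 :=
    ⟨d, P, hP0, TD_of_td hP, hPt⟩
  obtain ⟨k, hk⟩ : ∃ k, k = Nat.find hex := ⟨_, rfl⟩
  obtain ⟨Q, hQ0, hQ, hQt⟩ := Nat.find_spec hex
  rw [← hk] at hQ
  have hkd : k ≤ d := by rw [hk]; exact Nat.find_min' hex ⟨P, hP0, TD_of_td hP, hPt⟩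
  have hk1 : 1 ≤ k := by
    by_contra hlt
    have hk0 : k = 0 := by omega
    rw [hk0] at hQ
    have h1 := td_of_TD hQ
    have h2 : Q = C (Q.coeff 0) := eq_C_of_natDegree_eq_zero (by have := h1.1; omega)
    have h3 : Q.coeff 0 = C ((Q.coeff 0).coeff 0) :=
      eq_C_of_natDegree_eq_zero (by have := h1.2 0 le_rfl; omega)
    rw [h2, h3] at hQt
    unfold vv at hQt
    rw [eval₂_C] at hQt
    have h4 : (aeval (Real.exp 1) : ℤ[X] →ₐ[ℤ] ℝ).toRingHom (C ((Q.coeff 0).coeff 0)) =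
        (((Q.coeff 0).coeff 0 : ℤ) : ℝ) := by simp
    rw [h4] at hQt
    apply hQ0
    rw [h2, h3]
    have : (Q.coeff 0).coeff 0 = 0 := by exact_mod_cast hQt
    rw [this, C_0, C_0]
  have hmin : ∀ Q' : ℤ[X][X], Q' ≠ 0 → TD (k - 1) Q' → vv (Real.exp 1) t Q' ≠ 0 := by
    intro Q' h1 h2 h3
    have h4 : k ≤ k - 1 := by
      rw [hk] at *
      exact Nat.find_min' hex ⟨Q', h1, h2, h3⟩
    omega
  obtain ⟨h₂, hh₂1, hh₂⟩ : ∃ h₂ : ℝ, 1 ≤ h₂ ∧ ∀ j i, |((Q.coeff j).coeff i : ℝ)| ≤ h₂ := by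
    refine ⟨1 + ∑ j ∈ Q.support, ∑ i ∈ (Q.coeff j).support, |((Q.coeff j).coeff i : ℝ)|, ?_,
      fun j i => ?_⟩
    · have : 0 ≤ ∑ j ∈ Q.support, ∑ i ∈ (Q.coeff j).support, |((Q.coeff j).coeff i : ℝ)| :=
        Finset.sum_nonneg fun _ _ => Finset.sum_nonneg fun _ _ => abs_nonneg _
      linarith
    · have h0 : ∀ j ∈ Q.support, ∑ i ∈ (Q.coeff j).support, |((Q.coeff j).coeff i : ℝ)| ≤
          ∑ j ∈ Q.support, ∑ i ∈ (Q.coeff j).support, |((Q.coeff j).coeff i : ℝ)| := fun j hj =>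
        Finset.single_le_sum
          (f := fun j => ∑ i ∈ (Q.coeff j).support, |((Q.coeff j).coeff i : ℝ)|)
          (fun _ _ => Finset.sum_nonneg fun _ _ => abs_nonneg _) hj
      have hnn : 0 ≤ ∑ j ∈ Q.support, ∑ i ∈ (Q.coeff j).support, |((Q.coeff j).coeff i : ℝ)| :=
        Finset.sum_nonneg fun _ _ => Finset.sum_nonneg fun _ _ => abs_nonneg _
      by_cases hj : j ∈ Q.support
      · by_cases hi : i ∈ (Q.coeff j).support
        · have h1 := Finset.single_le_sum (f := fun i => |((Q.coeff j).coeff i : ℝ)|)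
            (fun _ _ => abs_nonneg _) hi
          have h2 := h0 j hj
          linarith
        · rw [notMem_support_iff.1 hi]
          simp; linarith
      · rw [notMem_support_iff.1 hj]
        simp; linarith
  obtain ⟨κ₁, hκ₁, hline⟩ := line k hk1 |t| η (abs_nonneg t) hη
  obtain ⟨κ₂, hκ₂, hm⟩ := Pool.Agent.W472.AC.e_measP 1 η hη
  obtain ⟨κ₃, hκ₃⟩ : ∃ κ₃ : ℝ, κ₃ = κ₁ / (h₂ ^ ((k : ℝ) + η) * h₂) := ⟨_, rfl⟩
  have hκ₃0 : 0 < κ₃ := by rw [hκ₃]; positivity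
  refine ⟨min κ₃ κ₂, lt_min hκ₃0 hκ₂, fun a b c H hH ha hb hc hne => ?_⟩
  have hH0 : 0 < H := by linarith
  have hd1 : (1 : ℝ) ≤ d := by exact_mod_cast (by omega : 1 ≤ d)
  obtain ⟨L, hL⟩ : ∃ L : ℝ, L = |(a : ℝ) + b * Real.exp 1 + c * t| := ⟨_, rfl⟩
  rw [← hL]
  have hHp : 0 < H ^ (-((d : ℝ) ^ 2 + d - 1 + η)) := by positivity
  by_cases hc0 : c = 0
  · -- no `t`
    have hab : a ≠ 0 ∨ b ≠ 0 := by
      rcases hne with h | h | h
      · exact Or.inl h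
      · exact Or.inr h
      · exact absurd hc0 h
    have h1 := hm (C a + C b * X) (by
        intro h0
        have e0 := congrArg (fun p : ℤ[X] => p.coeff 0) h0
        have e1 := congrArg (fun p : ℤ[X] => p.coeff 1) h0
        simp only [coeff_add, coeff_C_zero, coeff_C_mul, coeff_X_zero, mul_zero, add_zero,
          coeff_zero, coeff_X_one, mul_one] at e0 e1
        rw [coeff_C_of_ne_zero one_ne_zero, zero_add] at e1
        rcases hab with h | h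
        · exact h e0
        · exact h e1) ((natDegree_C_add (R := ℤ)).le.trans
          ((natDegree_C_mul_le b X).trans natDegree_X_le)) H hH (fun j => by
        rw [coeff_add, coeff_C, coeff_C_mul, coeff_X]
        rcases j with _ | _ | j
        · simpa using ha
        · simpa using hb
        · simp; linarith)
    have e : aeval (Real.exp 1) (C a + C b * X : ℤ[X]) = a + b * Real.exp 1 := by simp
    rw [e] at h1
    have hL' : L = |(a : ℝ) + b * Real.exp 1| := by rw [hL, hc0]; simp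
    rw [← hL'] at h1
    have h2 : H ^ (-((d : ℝ) ^ 2 + d - 1 + η)) * H ^ (((1 : ℕ) : ℝ) + η) ≤ 1 := by
      rw [← Real.rpow_add hH0]
      refine Real.rpow_le_one_of_one_le_of_nonpos hH ?_
      push_cast
      nlinarith
    have hL0 : 0 ≤ L := by rw [hL]; exact abs_nonneg _
    calc min κ₃ κ₂ * H ^ (-((d : ℝ) ^ 2 + d - 1 + η))
        ≤ κ₂ * H ^ (-((d : ℝ) ^ 2 + d - 1 + η)) :=
          mul_le_mul_of_nonneg_right (min_le_right _ _) hHp.le
      _ ≤ (H ^ (((1 : ℕ) : ℝ) + η) * L) * H ^ (-((d : ℝ) ^ 2 + d - 1 + η)) :=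
          mul_le_mul_of_nonneg_right h1 hHp.le
      _ = (H ^ (-((d : ℝ) ^ 2 + d - 1 + η)) * H ^ (((1 : ℕ) : ℝ) + η)) * L := by ring
      _ ≤ 1 * L := mul_le_mul_of_nonneg_right h2 hL0
      _ = L := one_mul L
  · have hLne : (a : ℝ) + b * Real.exp 1 + c * t ≠ 0 := fun h0 => hc0 (hli a b c h0).2.2
    have hres := res_ne_of_min t (Real.exp 1) k hk1 Q hQ0 (td_of_TD hQ) hQt hmin a b c hc0 hLne
    have h1 := hline t le_rfl a b c Q H h₂ hc0 hH hh₂1 ha hb hc (td_of_TD hQ) hh₂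
      (exists_point a b c k Q (td_of_TD hQ).1 hc0 hres)
    rw [hQt, abs_zero, zero_add, ← hL] at h1
    have hL0 : 0 ≤ L := by rw [hL]; exact abs_nonneg _
    have hh₂0 : 0 < h₂ := by linarith
    have h2 : κ₁ ≤ (h₂ ^ ((k : ℝ) + η) * h₂) * (H ^ ((k : ℝ) * (k + 1) + η - 1) * L) := by
      refine h1.trans (le_of_eq ?_)
      rw [Real.rpow_sub_one hH0.ne']
      field_simp
    have h3 : κ₃ ≤ H ^ ((k : ℝ) * (k + 1) + η - 1) * L := by
      rw [hκ₃, div_le_iff₀ (by positivity)]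
      linarith
    have h4 : H ^ (-((d : ℝ) ^ 2 + d - 1 + η)) * H ^ ((k : ℝ) * (k + 1) + η - 1) ≤ 1 := by
      rw [← Real.rpow_add hH0]
      refine Real.rpow_le_one_of_one_le_of_nonpos hH ?_
      have hkR : (k : ℝ) ≤ d := by exact_mod_cast hkd
      have hk0 : (0 : ℝ) ≤ k := Nat.cast_nonneg k
      nlinarith
    calc min κ₃ κ₂ * H ^ (-((d : ℝ) ^ 2 + d - 1 + η))
        ≤ κ₃ * H ^ (-((d : ℝ) ^ 2 + d - 1 + η)) :=
          mul_le_mul_of_nonneg_right (min_le_left _ _) hHp.le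
      _ ≤ (H ^ ((k : ℝ) * (k + 1) + η - 1) * L) * H ^ (-((d : ℝ) ^ 2 + d - 1 + η)) :=
          mul_le_mul_of_nonneg_right h3 hHp.le
      _ = (H ^ (-((d : ℝ) ^ 2 + d - 1 + η)) * H ^ ((k : ℝ) * (k + 1) + η - 1)) * L := by ring
      _ ≤ 1 * L := mul_le_mul_of_nonneg_right h4 hL0
      _ = L := one_mul L

/-- **A window of heights** -/
theorem window (d : ℕ) (hd : 1 ≤ d) (T w θ η : ℝ) (hT : 0 ≤ T) (hη : 0 < η)
    (hw : θ * (d + 1 + η) + d * (d + 1) + η < w + 1) : ∃ κ h₀ : ℝ, 0 < κ ∧ 1 ≤ h₀ ∧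
    ∀ t : ℝ, |t| ≤ T → ∀ (a b c : ℤ) (P : ℤ[X][X]) (h₁ h₂ : ℝ), c ≠ 0 → h₀ ≤ h₁ → 1 ≤ h₂ →
      h₂ ≤ h₁ ^ θ → |(a : ℝ)| ≤ h₁ → |(b : ℝ)| ≤ h₁ → |(c : ℝ)| ≤ h₁ → Td d P →
      (∀ j i, |((P.coeff j).coeff i : ℝ)| ≤ h₂) →
      (∃ u v : ℂ, (a : ℂ) + b * u + c * v = 0 ∧ vv u v P ≠ 0) →
      |(a : ℝ) + b * Real.exp 1 + c * t| ≤ h₁ ^ (-w) →
      κ * (h₁ ^ (-((d : ℝ) * (d + 1) + η)) * h₂ ^ (-((d : ℝ) + η))) ≤ |vv (Real.exp 1) t P| := by
  obtain ⟨κ, hκ, h⟩ := line d hd T η hT hη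
  obtain ⟨ε, hε⟩ : ∃ ε : ℝ, ε = w + 1 - (θ * (d + 1 + η) + d * (d + 1) + η) := ⟨_, rfl⟩
  have hε0 : 0 < ε := by rw [hε]; linarith
  refine ⟨κ / 2, max 1 ((2 / κ) ^ (1 / ε)), by positivity, le_max_left _ _,
    fun t ht a b c P h₁ h₂ hc0 hh₁ hh₂ hh₂θ ha hb hc hP hPh hne hL => ?_⟩
  have hh₁1 : 1 ≤ h₁ := (le_max_left _ _).trans hh₁
  have hh₁0 : 0 < h₁ := by linarith
  have hh₂0 : 0 < h₂ := by linarith
  have h1 := h t ht a b c P h₁ h₂ hc0 hh₁1 hh₂ ha hb hc hP hPh hne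
  obtain ⟨V, hV⟩ : ∃ V : ℝ, V = |vv (Real.exp 1) t P| := ⟨_, rfl⟩
  obtain ⟨L, hL'⟩ : ∃ L : ℝ, L = |(a : ℝ) + b * Real.exp 1 + c * t| := ⟨_, rfl⟩
  rw [← hV, ← hL'] at h1
  rw [← hL'] at hL
  rw [← hV]
  have hV0 : 0 ≤ V := by rw [hV]; exact abs_nonneg _
  obtain ⟨A, hA⟩ : ∃ A : ℝ, A = (d : ℝ) * (d + 1) + η := ⟨_, rfl⟩
  obtain ⟨B, hB⟩ : ∃ B : ℝ, B = (d : ℝ) + η := ⟨_, rfl⟩
  have hB0 : 0 ≤ B := by rw [hB]; positivity
  rw [← hA, ← hB] at h1 ⊢
  have hsmall : h₁ ^ (-ε) ≤ κ / 2 := by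
    have h2 : (2 / κ) ^ (1 / ε) ≤ h₁ := (le_max_right _ _).trans hh₁
    have h3 : 2 / κ ≤ h₁ ^ ε := by
      have h4 := Real.rpow_le_rpow (by positivity) h2 hε0.le
      rwa [← Real.rpow_mul (by positivity), one_div_mul_cancel hε0.ne', Real.rpow_one] at h4
    rw [Real.rpow_neg hh₁0.le, inv_le_comm₀ (by positivity) (by positivity)]
    rw [inv_div]
    exact h3
  have h5 : h₁ ^ A * h₂ ^ B * (h₂ / h₁ * L) ≤ κ / 2 := by
    refine le_trans ?_ hsmall
    calc h₁ ^ A * h₂ ^ B * (h₂ / h₁ * L) ≤ h₁ ^ A * h₂ ^ B * (h₂ / h₁ * h₁ ^ (-w)) := by gcongr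
      _ = h₁ ^ (A - 1 - w) * h₂ ^ (B + 1) := by
          rw [Real.rpow_add hh₂0, Real.rpow_one, Real.rpow_sub hh₁0, Real.rpow_sub hh₁0,
            Real.rpow_one, Real.rpow_neg hh₁0.le]
          field_simp
      _ ≤ h₁ ^ (A - 1 - w) * (h₁ ^ θ) ^ (B + 1) := by gcongr
      _ = h₁ ^ (-ε) := by
          rw [← Real.rpow_mul hh₁0.le, ← Real.rpow_add hh₁0]
          congr 1
          rw [hε, hA, hB]
          ring
  have h6 : κ / 2 ≤ h₁ ^ A * h₂ ^ B * V := by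
    have e : h₁ ^ A * h₂ ^ B * (V + h₂ / h₁ * L) =
        h₁ ^ A * h₂ ^ B * V + h₁ ^ A * h₂ ^ B * (h₂ / h₁ * L) := by ring
    rw [e] at h1
    linarith
  calc κ / 2 * (h₁ ^ (-A) * h₂ ^ (-B)) ≤ (h₁ ^ A * h₂ ^ B * V) * (h₁ ^ (-A) * h₂ ^ (-B)) :=
        mul_le_mul_of_nonneg_right h6 (by positivity)
    _ = V := by
        rw [Real.rpow_neg hh₁0.le, Real.rpow_neg hh₂0.le]
        field_simp

end Pool.Agent.V1139.LP
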