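import Pool.Agent.W472.AC.EMeas2
import Pool.Agent.V1139.NA.Comp
import Pool.Agent.V1139.DC.Digits

/-!
# A linear form and a polynomial in `e` and an arbitrary number

Author: helper39.
-/

set_option autoImplicit false

namespace Pool.Agent.V1139.LP

open Polynomial Finset
open Pool.Agent.V1139.NA (coeff_mul_le)

/-- value of a polynomial in two variables -/
noncomputable def vv {S : Type} [CommRing S] (u v : S) (P : ℤ[X][X]) : S :=
  P.eval₂ (aeval u : ℤ[X] →ₐ[ℤ] S).toRingHom v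

/-- total degree at most `d` -/
def Td (d : ℕ) (P : ℤ[X][X]) : Prop := P.natDegree ≤ d ∧ ∀ j ≤ d, (P.coeff j).natDegree ≤ d - j

lemma vv_eq {S : Type} [CommRing S] (u v : S) (P : ℤ[X][X]) (d : ℕ) (hP : P.natDegree ≤ d) :
    vv u v P = ∑ j ∈ range (d + 1), aeval u (P.coeff j) * v ^ j := by
  unfold vv
  rw [eval₂_eq_sum_range' _ (show P.natDegree < d + 1 by omega)]
  rfl

/-- `c ^ d P(X, -(a + b X) / c)` -/
noncomputable def res (a b c : ℤ) (d : ℕ) (P : ℤ[X][X]) : ℤ[X] :=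
  ∑ j ∈ range (d + 1), P.coeff j * (-(C a + C b * X)) ^ j * C (c ^ (d - j))

lemma aeval_res {S : Type} [CommRing S] (u : S) (a b c : ℤ) (d : ℕ) (P : ℤ[X][X]) :
    aeval u (res a b c d P) =
      ∑ j ∈ range (d + 1), aeval u (P.coeff j) * (-(a + b * u : S)) ^ j * (c : S) ^ (d - j) := by
  unfold res
  rw [map_sum]
  refine Finset.sum_congr rfl fun j _ => ?_
  simp

lemma res_ne (a b c : ℤ) (d : ℕ) (P : ℤ[X][X]) (hP : P.natDegree ≤ d) (hc : c ≠ 0) (u v : ℂ)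
    (h0 : (a : ℂ) + b * u + c * v = 0) (h1 : vv u v P ≠ 0) : res a b c d P ≠ 0 := by
  intro h
  apply h1
  have h2 := aeval_res u a b c d P
  rw [h, map_zero] at h2
  have h3 : (c : ℂ) ^ d * vv u v P = 0 := by
    rw [h2, vv_eq u v P d hP, Finset.mul_sum]
    refine Finset.sum_congr rfl fun j hj => ?_
    rw [mem_range] at hj
    have e : -((a : ℂ) + b * u) = c * v := by linear_combination -h0
    rw [e, mul_pow]
    have e2 : (c : ℂ) ^ d = c ^ j * c ^ (d - j) := by rw [← pow_add]; congr 1; omega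
    rw [e2]
    ring
  exact (mul_eq_zero.1 h3).resolve_left (pow_ne_zero _ (by exact_mod_cast hc))

lemma lin_pow (a b : ℤ) (h : ℝ) (hh : 0 ≤ h) (ha : |(a : ℝ)| ≤ h) (hb : |(b : ℝ)| ≤ h) (j : ℕ) :
    ((-(C a + C b * X) : ℤ[X]) ^ j).natDegree ≤ j ∧
      ∀ k, |(((-(C a + C b * X) : ℤ[X]) ^ j).coeff k : ℝ)| ≤ (2 * h) ^ j := by
  have hdeg : (-(C a + C b * X) : ℤ[X]).natDegree ≤ 1 := by
    rw [natDegree_neg]
    exact (natDegree_C_add (R := ℤ)).le.trans ((natDegree_C_mul_le b X).trans natDegree_X_le)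
  have hco : ∀ k, |((-(C a + C b * X) : ℤ[X]).coeff k : ℝ)| ≤ h := by
    intro k
    rw [coeff_neg, coeff_add, coeff_C, coeff_C_mul, coeff_X]
    rcases k with _ | _ | k
    · simpa using ha
    · simpa using hb
    · simpa using hh
  induction j with
  | zero =>
    refine ⟨by simp, fun k => ?_⟩
    rw [pow_zero, pow_zero, coeff_one]
    split_ifs <;> simp
  | succ j ih =>
    refine ⟨?_, fun k => ?_⟩
    · rw [pow_succ']
      refine natDegree_mul_le.trans ?_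
      have := ih.1
      omega
    · rw [pow_succ', pow_succ']
      have h1 := coeff_mul_le (-(C a + C b * X)) _ 1 h ((2 * h) ^ j) hdeg hh (by positivity) hco
        ih.2 k
      refine h1.trans (le_of_eq ?_)
      push_cast
      ring

lemma res_deg (a b c : ℤ) (d : ℕ) (P : ℤ[X][X]) (hP : Td d P) :
    (res a b c d P).natDegree ≤ d := by
  unfold res
  refine natDegree_sum_le_of_forall_le _ _ fun j hj => ?_
  rw [mem_range] at hj
  have h1 := hP.2 j (by omega)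
  have h2 := (lin_pow a b (|(a : ℝ)| + |(b : ℝ)|) (by positivity)
    (by linarith [abs_nonneg (b : ℝ)]) (by linarith [abs_nonneg (a : ℝ)]) j).1
  refine natDegree_mul_le.trans ?_
  rw [natDegree_C, add_zero]
  refine natDegree_mul_le.trans ?_
  omega

lemma res_coeff (a b c : ℤ) (d : ℕ) (P : ℤ[X][X]) (hP : Td d P) (h₁ h₂ : ℝ) (hh₁ : 1 ≤ h₁)
    (ha : |(a : ℝ)| ≤ h₁) (hb : |(b : ℝ)| ≤ h₁) (hc : |(c : ℝ)| ≤ h₁)
    (hPh : ∀ j i, |((P.coeff j).coeff i : ℝ)| ≤ h₂) (k : ℕ) :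
    |((res a b c d P).coeff k : ℝ)| ≤ (((d : ℝ) + 1) ^ 2 * 2 ^ d) * (h₁ ^ d * h₂) := by
  have hh₂ : 0 ≤ h₂ := (abs_nonneg _).trans (hPh 0 0)
  have hh₁0 : 0 ≤ h₁ := by linarith
  unfold res
  rw [finsetSum_coeff]
  push_cast
  refine (Finset.abs_sum_le_sum_abs _ _).trans ?_
  calc ∑ j ∈ range (d + 1),
        |((P.coeff j * (-(C a + C b * X)) ^ j * C (c ^ (d - j)) : ℤ[X]).coeff k : ℝ)|
      ≤ ∑ _j ∈ range (d + 1), (((d : ℝ) + 1) * 2 ^ d) * (h₁ ^ d * h₂) := by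
        refine Finset.sum_le_sum fun j hj => ?_
        rw [mem_range] at hj
        rw [coeff_mul_C]
        push_cast
        rw [abs_mul, abs_pow]
        have h1 := coeff_mul_le (P.coeff j) ((-(C a + C b * X)) ^ j) d h₂ ((2 * h₁) ^ j)
          ((hP.2 j (by omega)).trans (by omega)) hh₂ (by positivity) (hPh j)
          (lin_pow a b h₁ hh₁0 ha hb j).2 k
        have h2 : |(c : ℝ)| ^ (d - j) ≤ h₁ ^ (d - j) := pow_le_pow_left₀ (abs_nonneg _) hc _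
        calc _ ≤ (((d : ℝ) + 1) * (h₂ * (2 * h₁) ^ j)) * h₁ ^ (d - j) :=
              mul_le_mul h1 h2 (by positivity) (by positivity)
          _ = ((d : ℝ) + 1) * 2 ^ j * (h₁ ^ d * h₂) := by
              have e : h₁ ^ d = h₁ ^ j * h₁ ^ (d - j) := by rw [← pow_add]; congr 1; omega
              rw [e, mul_pow]
              ring
          _ ≤ ((d : ℝ) + 1) * 2 ^ d * (h₁ ^ d * h₂) := by
              have : (2 : ℝ) ^ j ≤ 2 ^ d := pow_le_pow_right₀ (by norm_num) (by omega)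
              gcongr
    _ = _ := by
        rw [Finset.sum_const, Finset.card_range, nsmul_eq_mul]
        push_cast
        ring

lemma abs_pow_sub (s s₀ M : ℝ) (hM : 0 ≤ M) (hs : |s| ≤ M) (hs₀ : |s₀| ≤ M) (j : ℕ) :
    |s ^ j - s₀ ^ j| ≤ j * M ^ (j - 1) * |s - s₀| := by
  rw [← Commute.geom_sum₂_mul (Commute.all s s₀), abs_mul]
  refine mul_le_mul_of_nonneg_right ?_ (abs_nonneg _)
  refine (Finset.abs_sum_le_sum_abs _ _).trans ?_
  calc ∑ i ∈ range j, |s ^ i * s₀ ^ (j - 1 - i)| ≤ ∑ _i ∈ range j, M ^ (j - 1) := by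
        refine Finset.sum_le_sum fun i hi => ?_
        rw [mem_range] at hi
        rw [abs_mul, abs_pow, abs_pow]
        calc |s| ^ i * |s₀| ^ (j - 1 - i) ≤ M ^ i * M ^ (j - 1 - i) := by gcongr
          _ = M ^ (j - 1) := by rw [← pow_add]; congr 1; omega
    _ = _ := by rw [Finset.sum_const, Finset.card_range, nsmul_eq_mul]

lemma upper (x T : ℝ) (hT : 0 ≤ T) (d : ℕ) :
    ∃ C : ℝ, 0 < C ∧ ∀ t : ℝ, |t| ≤ T → ∀ (a b c : ℤ) (P : ℤ[X][X]) (h₁ h₂ : ℝ), 1 ≤ h₁ →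
      |(a : ℝ)| ≤ h₁ → |(b : ℝ)| ≤ h₁ → |(c : ℝ)| ≤ h₁ → Td d P →
      (∀ j i, |((P.coeff j).coeff i : ℝ)| ≤ h₂) →
      |aeval x (res a b c d P)| ≤ h₁ ^ d * |vv x t P| +
        C * (h₂ * h₁ ^ (d - 1)) * |a + b * x + c * t| := by
  obtain ⟨A, hA⟩ : ∃ A : ℝ, A = 1 + |x| + T := ⟨_, rfl⟩
  have hx0 := abs_nonneg x
  have hA1 : 1 ≤ A := by rw [hA]; linarith
  obtain ⟨B, hB⟩ : ∃ B : ℝ, B = ((d : ℝ) + 1) * (max 1 |x|) ^ d := ⟨_, rfl⟩
  have hB0 : 0 < B := by rw [hB]; positivity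
  refine ⟨((d : ℝ) + 1) * (B * (d * A ^ d)) + 1, by positivity,
    fun t ht a b c P h₁ h₂ hh₁ ha hb hc hP hPh => ?_⟩
  have hh₂ : 0 ≤ h₂ := (abs_nonneg _).trans (hPh 0 0)
  have hh₁0 : 0 ≤ h₁ := by linarith
  obtain ⟨s, hs⟩ : ∃ s : ℝ, s = c * t := ⟨_, rfl⟩
  obtain ⟨s₀, hs₀⟩ : ∃ s₀ : ℝ, s₀ = -(a + b * x) := ⟨_, rfl⟩
  have hL : s - s₀ = a + b * x + c * t := by rw [hs, hs₀]; ring
  have hsM : |s| ≤ A * h₁ := by
    rw [hs, abs_mul]
    calc |(c : ℝ)| * |t| ≤ h₁ * T := mul_le_mul hc ht (abs_nonneg _) hh₁0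
      _ ≤ A * h₁ := by rw [hA]; nlinarith
  have hs₀M : |s₀| ≤ A * h₁ := by
    rw [hs₀, abs_neg]
    refine (abs_add_le _ _).trans ?_
    rw [abs_mul]
    have h1 : |(b : ℝ)| * |x| ≤ h₁ * |x| := mul_le_mul_of_nonneg_right hb hx0
    rw [hA]
    nlinarith
  have e1 : (c : ℝ) ^ d * vv x t P =
      ∑ j ∈ range (d + 1), aeval x (P.coeff j) * s ^ j * (c : ℝ) ^ (d - j) := by
    rw [vv_eq x t P d hP.1, Finset.mul_sum]
    refine Finset.sum_congr rfl fun j hj => ?_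
    rw [mem_range] at hj
    have e2 : (c : ℝ) ^ d = c ^ j * c ^ (d - j) := by rw [← pow_add]; congr 1; omega
    rw [hs, e2, mul_pow]
    ring
  have e2 : aeval x (res a b c d P) - (c : ℝ) ^ d * vv x t P =
      ∑ j ∈ range (d + 1), aeval x (P.coeff j) * (s₀ ^ j - s ^ j) * (c : ℝ) ^ (d - j) := by
    rw [aeval_res, e1, ← Finset.sum_sub_distrib, hs₀]
    refine Finset.sum_congr rfl fun j _ => ?_
    ring
  have hPj : ∀ j, j ≤ d → |aeval x (P.coeff j)| ≤ B * h₂ := by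
    intro j hj
    rw [hB]
    exact Pool.Agent.V1139.DC.abs_aeval_le x _ d ((hP.2 j hj).trans (by omega)) h₂ (hPh j)
  have h3 : |aeval x (res a b c d P) - (c : ℝ) ^ d * vv x t P| ≤
      ((d : ℝ) + 1) * (B * (d * A ^ d)) * (h₂ * h₁ ^ (d - 1)) * |a + b * x + c * t| := by
    rw [e2]
    refine (Finset.abs_sum_le_sum_abs _ _).trans ?_
    calc ∑ j ∈ range (d + 1), |aeval x (P.coeff j) * (s₀ ^ j - s ^ j) * (c : ℝ) ^ (d - j)|
        ≤ ∑ _j ∈ range (d + 1),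
          (B * (d * A ^ d)) * (h₂ * h₁ ^ (d - 1)) * |a + b * x + c * t| := by
          refine Finset.sum_le_sum fun j hj => ?_
          rw [mem_range] at hj
          rw [abs_mul, abs_mul, abs_pow, ← hL, abs_sub_comm (s₀ ^ j)]
          rcases Nat.eq_zero_or_pos j with h0 | h0
          · subst h0
            simp only [pow_zero, sub_self, abs_zero, mul_zero, zero_mul]
            positivity
          · have h4 := abs_pow_sub s s₀ (A * h₁) (by positivity) hsM hs₀M j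
            have h5 : |(c : ℝ)| ^ (d - j) ≤ h₁ ^ (d - j) := pow_le_pow_left₀ (abs_nonneg _) hc _
            calc |aeval x (P.coeff j)| * |s ^ j - s₀ ^ j| * |(c : ℝ)| ^ (d - j)
                ≤ (B * h₂) * (j * (A * h₁) ^ (j - 1) * |s - s₀|) * h₁ ^ (d - j) := by
                  have := hPj j (by omega)
                  gcongr
              _ = (B * (j * A ^ (j - 1))) * (h₂ * (h₁ ^ (j - 1) * h₁ ^ (d - j))) * |s - s₀| := by
                  rw [mul_pow]; ring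
              _ = (B * (j * A ^ (j - 1))) * (h₂ * h₁ ^ (d - 1)) * |s - s₀| := by
                  rw [← pow_add]; congr 4; omega
              _ ≤ (B * (d * A ^ d)) * (h₂ * h₁ ^ (d - 1)) * |s - s₀| := by
                  have h6 : (j : ℝ) ≤ d := by exact_mod_cast (by omega : j ≤ d)
                  have h7 : A ^ (j - 1) ≤ A ^ d := pow_le_pow_right₀ hA1 (by omega)
                  have h8 : (j : ℝ) * A ^ (j - 1) ≤ d * A ^ d :=
                    mul_le_mul h6 h7 (by positivity) (by positivity)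
                  have h9 : B * (j * A ^ (j - 1)) ≤ B * (d * A ^ d) :=
                    mul_le_mul_of_nonneg_left h8 hB0.le
                  have h10 : 0 ≤ (h₂ * h₁ ^ (d - 1)) := by positivity
                  exact mul_le_mul_of_nonneg_right (mul_le_mul_of_nonneg_right h9 h10)
                    (abs_nonneg _)
      _ = _ := by
          rw [Finset.sum_const, Finset.card_range, nsmul_eq_mul]
          push_cast
          ring
  have h4 : |aeval x (res a b c d P)| ≤ |(c : ℝ) ^ d * vv x t P| +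
      |aeval x (res a b c d P) - (c : ℝ) ^ d * vv x t P| := by
    have := abs_add_le ((c : ℝ) ^ d * vv x t P)
      (aeval x (res a b c d P) - (c : ℝ) ^ d * vv x t P)
    rwa [add_sub_cancel] at this
  have h5 : |(c : ℝ) ^ d * vv x t P| ≤ h₁ ^ d * |vv x t P| := by
    rw [abs_mul, abs_pow]
    exact mul_le_mul_of_nonneg_right (pow_le_pow_left₀ (abs_nonneg _) hc _) (abs_nonneg _)
  have h6 : 0 ≤ (h₂ * h₁ ^ (d - 1)) * |a + b * x + c * t| := by positivity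
  nlinarith

/-- **A linear form and a polynomial in `e` and an arbitrary number.** -/
theorem line (d : ℕ) (hd : 1 ≤ d) (T η : ℝ) (hT : 0 ≤ T) (hη : 0 < η) : ∃ κ : ℝ, 0 < κ ∧ ∀ t : ℝ, |t| ≤ T →
    ∀ (a b c : ℤ) (P : ℤ[X][X]) (h₁ h₂ : ℝ), c ≠ 0 → 1 ≤ h₁ → 1 ≤ h₂ →
      |(a : ℝ)| ≤ h₁ → |(b : ℝ)| ≤ h₁ → |(c : ℝ)| ≤ h₁ → Td d P →
      (∀ j i, |((P.coeff j).coeff i : ℝ)| ≤ h₂) →
      (∃ u v : ℂ, (a : ℂ) + b * u + c * v = 0 ∧ vv u v P ≠ 0) →
      κ ≤ h₁ ^ ((d : ℝ) * (d + 1) + η) * h₂ ^ ((d : ℝ) + η) *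
        (|vv (Real.exp 1) t P| + h₂ / h₁ * |a + b * Real.exp 1 + c * t|) := by
  obtain ⟨η', hη'⟩ : ∃ η' : ℝ, η' = η / (d + 1) := ⟨_, rfl⟩
  have hη'0 : 0 < η' := by rw [hη']; positivity
  have hη'1 : η' ≤ η := by
    rw [hη']
    exact div_le_self hη.le (by have : (0 : ℝ) ≤ d := Nat.cast_nonneg d; linarith)
  have hη'2 : (d : ℝ) * η' ≤ η := by
    rw [hη']
    rw [mul_div_assoc', div_le_iff₀ (by positivity)]
    nlinarith
  obtain ⟨κ₀, hκ₀, hm⟩ := Pool.Agent.W472.AC.e_measP d η' hη'0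
  obtain ⟨C, hC, hup⟩ := upper (Real.exp 1) T hT d
  obtain ⟨W, hW⟩ : ∃ W : ℝ, W = ((d : ℝ) + 1) ^ 2 * 2 ^ d := ⟨_, rfl⟩
  have hW1 : 1 ≤ W := by
    rw [hW]
    have h1 : (1 : ℝ) ≤ ((d : ℝ) + 1) ^ 2 := one_le_pow₀ (by
      have : (0 : ℝ) ≤ d := Nat.cast_nonneg d; linarith)
    have h2 : (1 : ℝ) ≤ 2 ^ d := one_le_pow₀ (by norm_num)
    exact one_le_mul_of_one_le_of_one_le h1 h2
  refine ⟨κ₀ / (W ^ ((d : ℝ) + η') * (1 + C)), by positivity,
    fun t ht a b c P h₁ h₂ hc0 hh₁ hh₂ ha hb hc hP hPh ⟨u, v, huv, hne⟩ => ?_⟩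
  have hh₁0 : 0 < h₁ := by linarith
  have hh₂0 : 0 < h₂ := by linarith
  have hRne := res_ne a b c d P hP.1 hc0 u v huv hne
  have hhd : 1 ≤ h₁ ^ d := one_le_pow₀ hh₁
  have h1 := hm (res a b c d P) hRne (res_deg a b c d P hP) (W * (h₁ ^ d * h₂))
    (one_le_mul_of_one_le_of_one_le hW1 (one_le_mul_of_one_le_of_one_le hhd hh₂))
    (fun k => by rw [hW]; exact res_coeff a b c d P hP h₁ h₂ hh₁ ha hb hc hPh k)
  have h2 := hup t ht a b c P h₁ h₂ hh₁ ha hb hc hP hPh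
  obtain ⟨V, hV⟩ : ∃ V : ℝ, V = |vv (Real.exp 1) t P| := ⟨_, rfl⟩
  obtain ⟨L, hL⟩ : ∃ L : ℝ, L = |(a : ℝ) + b * Real.exp 1 + c * t| := ⟨_, rfl⟩
  have hV0 : 0 ≤ V := by rw [hV]; exact abs_nonneg _
  have hL0 : 0 ≤ L := by rw [hL]; exact abs_nonneg _
  rw [← hV, ← hL] at h2 ⊢
  -- bound of the value by the sum
  have h3 : |aeval (Real.exp 1) (res a b c d P)| ≤ (1 + C) * (h₁ ^ d * (V + h₂ / h₁ * L)) := by
    refine h2.trans ?_
    have e3 : h₁ ^ (d - 1) ≤ h₁ ^ d / h₁ := by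
      rw [le_div_iff₀ hh₁0, ← pow_succ]
      exact le_of_eq (by congr 1; omega)
    have e4 : 0 ≤ h₂ / h₁ * L := by positivity
    have e5 : C * (h₂ * h₁ ^ (d - 1)) * L ≤ C * (h₁ ^ d * (h₂ / h₁ * L)) := by
      calc C * (h₂ * h₁ ^ (d - 1)) * L ≤ C * (h₂ * (h₁ ^ d / h₁)) * L := by gcongr
        _ = C * (h₁ ^ d * (h₂ / h₁ * L)) := by ring
    have e6 : 0 ≤ C * (h₁ ^ d * V) := by positivity
    have e7 : 0 ≤ h₁ ^ d * (h₂ / h₁ * L) := by positivity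
    nlinarith
  obtain ⟨S, hS⟩ : ∃ S : ℝ, S = V + h₂ / h₁ * L := ⟨_, rfl⟩
  have hS0 : 0 ≤ S := by rw [hS]; positivity
  rw [← hS] at h3 ⊢
  have hW0 : 0 < W := by linarith
  rw [div_le_iff₀ (by positivity)]
  have e8 : (W * (h₁ ^ d * h₂)) ^ ((d : ℝ) + η') * ((1 + C) * (h₁ ^ d * S)) =
      (W ^ ((d : ℝ) + η') * (1 + C)) *
        (h₁ ^ ((d : ℝ) * (d + 1) + d * η') * h₂ ^ ((d : ℝ) + η') * S) := by
    rw [Real.mul_rpow hW0.le (by positivity), Real.mul_rpow (by positivity) hh₂0.le]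
    have e9 : (h₁ ^ d) ^ ((d : ℝ) + η') * h₁ ^ d = h₁ ^ ((d : ℝ) * (d + 1) + d * η') := by
      rw [← Real.rpow_natCast, ← Real.rpow_mul hh₁0.le, ← Real.rpow_add hh₁0]
      congr 1
      ring
    rw [← e9]
    ring
  calc κ₀ ≤ (W * (h₁ ^ d * h₂)) ^ ((d : ℝ) + η') * |aeval (Real.exp 1) (res a b c d P)| := h1
    _ ≤ (W * (h₁ ^ d * h₂)) ^ ((d : ℝ) + η') * ((1 + C) * (h₁ ^ d * S)) :=
        mul_le_mul_of_nonneg_left h3 (by positivity)
    _ = (W ^ ((d : ℝ) + η') * (1 + C)) *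
        (h₁ ^ ((d : ℝ) * (d + 1) + d * η') * h₂ ^ ((d : ℝ) + η') * S) := e8
    _ ≤ (W ^ ((d : ℝ) + η') * (1 + C)) *
        (h₁ ^ ((d : ℝ) * (d + 1) + η) * h₂ ^ ((d : ℝ) + η) * S) := by
        have f1 : h₁ ^ ((d : ℝ) * (d + 1) + d * η') ≤ h₁ ^ ((d : ℝ) * (d + 1) + η) :=
          Real.rpow_le_rpow_of_exponent_le hh₁ (by linarith)
        have f2 : h₂ ^ ((d : ℝ) + η') ≤ h₂ ^ ((d : ℝ) + η) :=
          Real.rpow_le_rpow_of_exponent_le hh₂ (by linarith)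
        gcongr
    _ = _ := by ring

end Pool.Agent.V1139.LP
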